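import Pool.Agent.H11.BK.All
import Pool.Agent.H11.BK.FamG
import Pool.Agent.H11.TV.Uni

/-!
# Points and subvarieties of tori of bounded degree over fields of radicals and roots of unity

Let `K` be a number field, Galois over `ℚ`, let `b_1, …, b_r ∈ 𝓞_K` be nonzero and multiplicatively independent, and `Γ_b` the group of all
`x ∈ K̄*` with `x^k ∈ ⟨b_1, …, b_r⟩` for some `k ≥ 1`, a saturated group of rank `r` which contains all roots of unity. A prime `p` is good for
`b_i` if `b_i ∉ P²` and, if `b_i ∉ P`, `b_i` is not a `p`-th power modulo `P²`, for all maximal ideals `P` of `𝓞_K` above `p`. (For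
`K = ℚ` and `p ∤ b_i` this means `b_i^(p-1) ≢ 1` modulo `p²`.) Let `M ⊃ K` be a number field. A field `M ⊂ L ⊂ M̄` is tame (with constants
`D`, `P`, `c`) if every finite subset of `L` lies in an extension of degree at most `P` of some `M(ξ, x_1, …, x_r)`, `ξ^n = 1`,
`x_i^(m_i) = b_i`, `n` prime to the `m_i`, such that
* the `m_i` are pairwise coprime, and all primes `p ∣ m_i` are good for `b_i` up to at most `P` of them and further ones with
  `∑ log p / p ≤ c`; these exceptional primes divide `m_i` exactly once; or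
* `[K(ξ, x_1, …, x_r) : K(ξ)] = ∏ m_i` and the index of `{z : D z ∈ 𝓞_K[x_1, …, x_r]}` in the ring of integers of
  `K(x_1, …, x_r)` is at most `exp (c ∏ m_i)`.
The theorem:
* For all `D`, `E` there is `c > 0`, the same for all number fields `M ⊃ K`, with `h(α) ≥ c` for all tame `L` and all `α ∈ M̄*` outside
  `Γ_b` with `[M : K] [L(α) : L] P ≤ E`.
* For all `D`, `M`, `N`, `d`, `P` there is `c > 0`, independent of `n`, with `e μ_ess(V) ≥ c` for all groups `Γ` containing
  `⟨b_1, …, b_r⟩^n` and all `Γ`-transverse subvarieties `V` of `𝔾_m^n` on which some nonzero sum of `N` terms `g_j x^(m_j)`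
  vanishes, `m_j ≤ e`, `g_j` of degree at most `d` over a tame field.
* For all `D`, `M`, `n`, `ω₀`, `P` there is `c > 0` with `μ_ess(V) ≥ c` for all groups `Γ` containing `⟨b_1, …, b_r⟩^n` such that
  `M(Γ)` is tame and all `Γ`-transverse subvarieties `V` of `𝔾_m^n` with `ω_{M(Γ)}(V) ≤ ω₀`.
-/

set_option autoImplicit false
set_option linter.unusedSectionVars false

open MvPolynomial Filter Topology IntermediateField NumberField

namespace Pool.Agent.Results.MP_187c26_nt.RadicalBogomolov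

/-- The group of points over the algebraic closure of `K` of the torus `𝔾_m^n`. -/
abbrev Torus (K : Type) [Field K] (n : ℕ) : Type := Fin n → (AlgebraicClosure K)ˣ

section Definitions

/-- The index of the group of all `z` with `D z ∈ 𝓞_K[x_1, …, x_r]` in the ring of integers of `K(x_1, …, x_r)`. -/
noncomputable def orderIndex (K : Type) [Field K] [NumberField K] {Ω : Type} [Field Ω]
    [CharZero Ω] [Algebra K Ω] {r : ℕ} (D : ℕ) (x : Fin r → Ω) : ℕ :=
  ((Algebra.adjoin (𝓞 K) (Set.range x)).toSubring.toAddSubgroup.comap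
      (AddMonoidHom.mulLeft (D : Ω))).relIndex
    ((IntermediateField.adjoin K (Set.range x)).toSubalgebra.toSubring ⊓
      (integralClosure ℤ Ω).toSubring).toAddSubgroup

variable {K : Type} [Field K] [NumberField K] {n : ℕ}

/-- The coordinate vector of a point of `𝔾_m^n`. -/
def coords (x : Torus K n) : Fin n → AlgebraicClosure K := fun i => (x i : AlgebraicClosure K)

/-- The canonical height `h_G(x) = ∑ h(x_i)`, with `h` the absolute logarithmic Weil height. -/
noncomputable def height (x : Torus K n) : ℝ := ∑ i, NumberField.absLogHeight₁ (coords x i)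

/-- The ideal of all polynomials over the algebraic closure vanishing on `V`. -/
noncomputable def idealOf (V : Set (Torus K n)) :
    Ideal (MvPolynomial (Fin n) (AlgebraicClosure K)) :=
  vanishingIdeal (AlgebraicClosure K) (coords '' V)

/-- `Z` is a Zariski closed subset of `𝔾_m^n` defined over `L`. -/
def IsClosedOver (L : IntermediateField K (AlgebraicClosure K)) (Z : Set (Torus K n)) : Prop :=
  ∃ J : Ideal (MvPolynomial (Fin n) L), Z = {x | coords x ∈ zeroLocus (AlgebraicClosure K) J}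

/-- Subvarieties: irreducible closed subsets (over the algebraic closure). -/
def IsSubvariety (V : Set (Torus K n)) : Prop := IsClosedOver ⊤ V ∧ (idealOf V).IsPrime

/-- All irreducible components of `Z` have dimension `d`. -/
def IsEquidimensional (Z : Set (Torus K n)) (d : ℕ) : Prop :=
  Z.Nonempty ∧ ∀ P ∈ (idealOf Z).minimalPrimes,
    ringKrullDim (MvPolynomial (Fin n) (AlgebraicClosure K) ⧸ P) = d

/-- The space of functions on `Z` that are restrictions of polynomials of degree at most `m`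
in each variable, that is, of global sections of `O(m,...,m)` on `(ℙ^1)^n`. -/
noncomputable def sections (Z : Set (Torus K n)) (m : ℕ) :
    Submodule (AlgebraicClosure K) (Z → AlgebraicClosure K) :=
  (restrictDegree (Fin n) (AlgebraicClosure K) m).map
    (LinearMap.pi fun z : Z => (aeval (coords (z : Torus K n))).toLinearMap)

/-- `Z`, of pure dimension `d`, has degree `δ` with respect to `O(1,...,1)` on `(ℙ^1)^n`:
its Hilbert function is asymptotic to `δ m^d / d!`. -/
def HasDegree (Z : Set (Torus K n)) (d : ℕ) (δ : ℝ) : Prop :=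
  Tendsto (fun m : ℕ => (d.factorial : ℝ) *
    (Module.finrank (AlgebraicClosure K) (sections Z m) : ℝ) / (m : ℝ) ^ d) atTop (𝓝 δ)

/-- `ω = deg(Z)^(1/(n - dim Z))` for some equidimensional Zariski closed `Z ⊊ 𝔾_m^n` defined over `L` and
containing `V`. The obstruction index `ω_L(V)` is the minimum of these `ω`. -/
def ObstructionValue (L : IntermediateField K (AlgebraicClosure K)) (V : Set (Torus K n))
    (ω : ℝ) : Prop :=
  ∃ (Z : Set (Torus K n)) (d : ℕ) (δ : ℝ), IsClosedOver L Z ∧ Z ≠ Set.univ ∧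
    IsEquidimensional Z d ∧ V ⊆ Z ∧ HasDegree Z d δ ∧ ω = δ ^ (1 / ((n : ℝ) - d))

/-- The points of height at most `θ` are Zariski dense in `V`. The essential minimum `μ_ess(V)` is the
infimum of these `θ`. -/
def EssentialBound (V : Set (Torus K n)) (θ : ℝ) : Prop :=
  idealOf {x | x ∈ V ∧ height x ≤ θ} ≤ idealOf V

/-- The field generated over `K` by the coordinates of the points of `Γ`. -/
noncomputable def fieldOf (Γ : Subgroup (Torus K n)) : IntermediateField K (AlgebraicClosure K) :=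
  IntermediateField.adjoin K {y | ∃ γ ∈ Γ, ∃ i, y = coords γ i}

/-- The saturation of `Γ`. -/
def sat (Γ : Subgroup (Torus K n)) : Set (Torus K n) := {x | ∃ m : ℕ, 1 ≤ m ∧ x ^ m ∈ Γ}

/-- `V` is `Γ`-transverse: no proper `Γ`-torsion subvariety `B γ`, with `B` a connected algebraic
subgroup and `γ` in the saturation of `Γ`, contains `V`. -/
def IsTransverse (Γ : Subgroup (Torus K n)) (V : Set (Torus K n)) : Prop :=
  ∀ (B : Subgroup (Torus K n)) (γ : Torus K n), IsSubvariety (B : Set (Torus K n)) → γ ∈ sat Γ →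
    (fun b => b * γ) '' (B : Set (Torus K n)) ≠ Set.univ →
    ¬ V ⊆ (fun b => b * γ) '' (B : Set (Torus K n))

/-- `y` has degree at most `d` over `L`. -/
def DegreeLE (L : IntermediateField K (AlgebraicClosure K)) (d : ℕ)
    (y : AlgebraicClosure K) : Prop :=
  ∃ P : Polynomial L, P ≠ 0 ∧ P.natDegree ≤ d ∧ Polynomial.aeval y P = 0

end Definitions

section Families

variable {K : Type} [Field K] [NumberField K] {r : ℕ}

/-- `b i` in the algebraic closure of `M`. -/
noncomputable def gen (b : Fin r → 𝓞 K) (M : Type) [Field M] [NumberField M] [Algebra K M]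
    (i : Fin r) : AlgebraicClosure M := algebraMap K (AlgebraicClosure M) (b i : K)

/-- The `b i` are nonzero and multiplicatively independent. -/
def IsIndependent (b : Fin r → 𝓞 K) : Prop :=
  (∀ i, b i ≠ 0) ∧ ∀ j : Fin r → ℤ, ∏ i, (b i : K) ^ j i = 1 → j = 0

/-- The prime `p` is good for `β`: for all maximal ideals `P` above `p`, `β ∉ P²`, and if `β ∉ P`, then `β` is not congruent to a
`p`-th power modulo `P²`. -/
def IsGood (β : 𝓞 K) (p : ℕ) : Prop :=
  ∀ P : Ideal (𝓞 K), P.IsMaximal → (p : 𝓞 K) ∈ P →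
    β ∉ P ^ 2 ∧ (β ∉ P → ∀ c : 𝓞 K, β - c ^ p ∉ P ^ 2)

/-- The primes `p ∣ m_i` are good for `b_i`, except for elements of two finite sets `W`, `W'`, which divide `m_i` exactly once;
`∑ p ∈ W, log p / p ≤ c`, and `W'` has at most `P` elements. -/
def FewBadPrimes (b : Fin r → 𝓞 K) (m : Fin r → ℕ) (P : ℕ) (c : ℝ) : Prop :=
  ∃ W W' : Finset ℕ, ∑ p ∈ W, Real.log (p : ℕ) / p ≤ c ∧ W'.card ≤ P ∧
    ∀ i p, p.Prime → p ∣ m i → ((p ∈ W ∨ p ∈ W') ∧ ¬ p ^ 2 ∣ m i) ∨ IsGood (b i) p

/-- Every finite subset of `L` lies in a field `M(ξ, x_1, …, x_r, y)`, `ξ ^ n = 1`, `x_i ^ m_i = b_i`, `n` prime to all `m_i`, `y` of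
degree at most `P` over `M(ξ, x_1, …, x_r)`, such that either the `m_i` are pairwise coprime with few bad prime factors, or
`[K(ξ, x_1, …, x_r) : K(ξ)] = ∏ m_i` and `orderIndex K D x ≤ exp (c ∏ m_i)`. -/
def IsTame (b : Fin r → 𝓞 K) (D P : ℕ) (c : ℝ) {M : Type} [Field M] [NumberField M]
    [Algebra K M] (L : IntermediateField M (AlgebraicClosure M)) : Prop :=
  ∀ S : Finset (AlgebraicClosure M), (∀ s ∈ S, s ∈ L) → ∃ (n : ℕ) (m : Fin r → ℕ)
    (ξ : AlgebraicClosure M) (x : Fin r → AlgebraicClosure M) (y : AlgebraicClosure M),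
    1 ≤ n ∧ (∀ i, 1 ≤ m i) ∧ (∀ i, Nat.Coprime n (m i)) ∧ ξ ^ n = 1 ∧
    (∀ i, x i ^ m i = gen b M i) ∧
    (((∀ i j, i ≠ j → Nat.Coprime (m i) (m j)) ∧ FewBadPrimes b m P c) ∨
      (Module.finrank K (IntermediateField.adjoin K ({ξ} ∪ Set.range x)) =
        (∏ i, m i) *
          Module.finrank K (IntermediateField.adjoin K ({ξ} : Set (AlgebraicClosure M))) ∧
        (orderIndex K D x : ℝ) ≤ Real.exp (c * ((∏ i, m i : ℕ) : ℝ)))) ∧
    DegreeLE (IntermediateField.adjoin M ({ξ} ∪ Set.range x)) P y ∧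
    ∀ s ∈ S, s ∈ IntermediateField.adjoin M ({ξ} ∪ Set.range x ∪ {y})

/-- `Γ` contains all points whose coordinates lie in the group generated by the `b i`. -/
def ContainsPowers (b : Fin r → 𝓞 K) {M : Type} [Field M] [NumberField M] [Algebra K M] {n : ℕ}
    (Γ : Subgroup (Torus M n)) : Prop :=
  ∀ x : Torus M n, (∀ l, ∃ j : Fin r → ℤ, coords x l = ∏ i, gen b M i ^ j i) → x ∈ Γ

/-- The bound for elements of bounded degree over tame fields; the constant is the same for all number fields `M ⊃ K`. -/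
def ElementBound (b : Fin r → 𝓞 K) : Prop :=
  ∀ D E : ℕ, 1 ≤ D → ∃ c : ℝ, 0 < c ∧ ∀ (M : Type) [Field M] [NumberField M] [Algebra K M]
    (L : IntermediateField M (AlgebraicClosure M)) (P d : ℕ) (α : (AlgebraicClosure M)ˣ),
    IsTame b D P c L → Module.finrank K M * d * P ≤ E →
    DegreeLE L d (α : AlgebraicClosure M) →
    (∀ k : ℕ, 1 ≤ k → ∀ j : Fin r → ℤ, (α : AlgebraicClosure M) ^ k ≠ ∏ i, gen b M i ^ j i) →
    c ≤ NumberField.absLogHeight₁ (α : AlgebraicClosure M)

/-- The bound for subvarieties with a sparse equation. -/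
def SparseBound (b : Fin r → 𝓞 K) (M : Type) [Field M] [NumberField M] [Algebra K M] : Prop :=
  ∀ D N d P : ℕ, 1 ≤ D → ∃ c : ℝ, 0 < c ∧
    ∀ (L : IntermediateField M (AlgebraicClosure M)), IsTame b D P c L →
    ∀ (n : ℕ) (Γ : Subgroup (Torus M n)), ContainsPowers b Γ →
    ∀ V : Set (Torus M n), IsSubvariety V → IsTransverse Γ V →
    ∀ (e : ℕ) (m : Fin N → Fin n → ℕ) (g : Fin N → AlgebraicClosure M),
    (∀ j i, m j i ≤ e) → (∀ j, DegreeLE L d (g j)) →
    (∑ j, C (g j) * ∏ i, X i ^ m j i) ≠ 0 →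
    (∑ j, C (g j) * ∏ i, X i ^ m j i) ∈ idealOf V →
    ∀ θ : ℝ, EssentialBound V θ → c ≤ e * θ

/-- The bound for subvarieties of bounded obstruction index. -/
def BogomolovBound (b : Fin r → 𝓞 K) (M : Type) [Field M] [NumberField M] [Algebra K M] :
    Prop :=
  ∀ (D n : ℕ) (ω₀ : ℝ) (P : ℕ), 1 ≤ D → ∃ c : ℝ, 0 < c ∧
    ∀ Γ : Subgroup (Torus M n), ContainsPowers b Γ → IsTame b D P c (fieldOf Γ) →
    ∀ V : Set (Torus M n), IsSubvariety V → V ≠ Set.univ → IsTransverse Γ V →
    (∃ ω : ℝ, ObstructionValue (fieldOf Γ) V ω ∧ ω ≤ ω₀) →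
    ∀ θ : ℝ, EssentialBound V θ → c ≤ θ

end Families

private lemma tame_iff {K : Type} [Field K] [NumberField K] {r : ℕ} {b : Fin r → 𝓞 K} {D P : ℕ}
    {c : ℝ} {M : Type} [Field M] [NumberField M] [Algebra K M]
    {L : IntermediateField M (AlgebraicClosure M)} :
    IsTame b D P c L ↔ Pool.Agent.H11.BK.InTameG b D P c L := Iff.rfl

private lemma tame_mono {K : Type} [Field K] [NumberField K] {r : ℕ} {b : Fin r → 𝓞 K}
    {D P : ℕ} {c c' : ℝ} {M : Type} [Field M] [NumberField M] [Algebra K M]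
    {L : IntermediateField M (AlgebraicClosure M)} (hcc : c ≤ c')
    (h : IsTame b D P c L) : IsTame b D P c' L := by
  intro S hS
  obtain ⟨n, m, ξ, x, y, h1, h2, h3, h4, h5, h6, h7, h8⟩ := h S hS
  refine ⟨n, m, ξ, x, y, h1, h2, h3, h4, h5, ?_, h7, h8⟩
  rcases h6 with ⟨h6, W, W', hW, h9⟩ | ⟨h6, h9⟩
  · exact Or.inl ⟨h6, W, W', hW.trans hcc, h9⟩
  · refine Or.inr ⟨h6, h9.trans (Real.exp_le_exp.2 ?_)⟩
    exact mul_le_mul_of_nonneg_right hcc (Nat.cast_nonneg _)

private lemma natDegree_le {M : Type} [Field M] [NumberField M]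
    (L : IntermediateField M (AlgebraicClosure M)) (d : ℕ) (y : AlgebraicClosure M)
    (h : DegreeLE L d y) : (minpoly L y).natDegree ≤ d := by
  obtain ⟨P, hP0, hPd, hP⟩ := h
  exact (Polynomial.natDegree_le_natDegree (minpoly.degree_le_of_ne_zero L y hP0 hP)).trans hPd

private lemma dg_le {M : Type} [Field M] [NumberField M]
    (L : IntermediateField M (AlgebraicClosure M)) (d : ℕ) (y : AlgebraicClosure M)
    (h : DegreeLE L d y) : Pool.Agent.H72.PB.dg L y ≤ d := by
  obtain ⟨P, hP0, hPd, hP⟩ := h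
  refine (Pool.Agent.H72.PB.dg_le_of_poly (P.map (algebraMap _ (AlgebraicClosure M)))
    ?_ ?_ ?_).trans ?_
  · rw [Ne, Polynomial.map_eq_zero]
    exact hP0
  · intro i
    rw [Polynomial.coeff_map]
    exact (P.coeff i).2
  · rw [Polynomial.eval_map_algebraMap]
    exact hP
  · rw [Polynomial.natDegree_map]
    exact hPd

private theorem fam {K : Type} [Field K] [NumberField K] [IsGalois ℚ K] {r : ℕ}
    (b : Fin r → 𝓞 K) (hb : IsIndependent b) (D E : ℕ) (hD : 1 ≤ D) :
    ∃ c : ℝ, 0 < c ∧ ∀ (M Ω : Type) [Field M] [NumberField M] [Field Ω] [CharZero Ω]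
      [Algebra K M] [Algebra K Ω] [Algebra M Ω] [IsScalarTower K M Ω] [Algebra.IsAlgebraic K Ω]
      (P : ℕ) (L : IntermediateField M Ω), Pool.Agent.H11.BK.InTameG b D P c L →
      ∀ a : Ω, a ≠ 0 → Module.finrank K M * (minpoly L a).natDegree * P ≤ E →
      NumberField.absLogHeight₁ a < c → Pool.Agent.H11.BK.InG K b a :=
  Pool.Agent.H11.BK.famG b D E (Pool.Agent.H11.BK.all0 D hD r b E hb)
    (Pool.Agent.H11.BK.tPG (fun D hD r b d hb => Pool.Agent.H11.BK.all0 D hD r b d hb) r b hb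
      E E)

private theorem element {K : Type} [Field K] [NumberField K] [IsGalois ℚ K] {r : ℕ}
    (b : Fin r → 𝓞 K) (hb : IsIndependent b) : ElementBound b := by
  intro D E hD
  obtain ⟨c, hc, h⟩ := fam b hb D E hD
  refine ⟨c, hc, ?_⟩
  intro M _ _ _ L P d α hL hE hα hnot
  have : Algebra.IsAlgebraic K (AlgebraicClosure M) := Algebra.IsAlgebraic.trans K M _
  by_contra hlt
  rw [not_le] at hlt
  obtain ⟨k, hk, j, hj⟩ := h M (AlgebraicClosure M) P L (tame_iff.1 hL)
    (α : AlgebraicClosure M) α.ne_zero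
    ((Nat.mul_le_mul_right _ (Nat.mul_le_mul_left _ (natDegree_le L d _ hα))).trans hE) hlt
  exact hnot k hk j hj

section

variable {K : Type} [Field K] [NumberField K] {r : ℕ} (M : Type) [Field M] [NumberField M]
  [Algebra K M]

private lemma b_ne (b : Fin r → 𝓞 K) (hb : IsIndependent b) (i : Fin r) : gen b M i ≠ 0 := by
  unfold gen
  rw [Ne, map_eq_zero]
  exact NumberField.RingOfIntegers.coe_ne_zero_iff.2 (hb.1 i)

/-- The group generated by the `b i`. -/
private noncomputable def grp (b : Fin r → 𝓞 K) (hb : IsIndependent b) :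
    Subgroup (AlgebraicClosure M)ˣ where
  carrier := {u | ∃ j : Fin r → ℤ, u = ∏ i, (Units.mk0 (gen b M i) (b_ne M b hb i)) ^ j i}
  one_mem' := ⟨0, by simp⟩
  mul_mem' := by
    rintro _ _ ⟨j, rfl⟩ ⟨k, rfl⟩
    refine ⟨j + k, ?_⟩
    rw [← Finset.prod_mul_distrib]
    exact Finset.prod_congr rfl fun i _ => (zpow_add _ _ _).symm
  inv_mem' := by
    rintro _ ⟨j, rfl⟩
    refine ⟨-j, ?_⟩
    rw [← Finset.prod_inv_distrib]
    exact Finset.prod_congr rfl fun i _ => (zpow_neg _ _).symm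

private lemma mem_grp (b : Fin r → 𝓞 K) (hb : IsIndependent b) (u : (AlgebraicClosure M)ˣ) :
    u ∈ grp M b hb ↔ ∃ j : Fin r → ℤ, (u : AlgebraicClosure M) = ∏ i, gen b M i ^ j i := by
  constructor
  · rintro ⟨j, rfl⟩
    refine ⟨j, ?_⟩
    rw [Units.coe_prod]
    refine Finset.prod_congr rfl fun i _ => ?_
    rw [Units.val_zpow_eq_zpow_val, Units.val_mk0]
  · rintro ⟨j, hj⟩
    refine ⟨j, ?_⟩
    apply Units.ext
    rw [hj, Units.coe_prod]
    refine Finset.prod_congr rfl fun i _ => ?_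
    rw [Units.val_zpow_eq_zpow_val, Units.val_mk0]

private theorem input [IsGalois ℚ K] (b : Fin r → 𝓞 K) (hb : IsIndependent b) (D C P : ℕ)
    (hD : 1 ≤ D) : ∃ c : ℝ, 0 < c ∧
      ∀ L : IntermediateField M (AlgebraicClosure M), IsTame b D P c L →
      ∀ γ : (AlgebraicClosure M)ˣ, (∀ m : ℕ, 1 ≤ m → γ ^ m ∉ grp M b hb) →
      Pool.Agent.H72.PB.dg L (γ : AlgebraicClosure M) ≤ C →
      c ≤ NumberField.absLogHeight₁ (γ : AlgebraicClosure M) := by
  obtain ⟨c, hc, h⟩ := fam b hb D (Module.finrank K M * C * P) hD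
  refine ⟨c, hc, ?_⟩
  intro L hL γ hγ hdeg
  have : Algebra.IsAlgebraic K (AlgebraicClosure M) := Algebra.IsAlgebraic.trans K M _
  by_contra hlt
  rw [not_le] at hlt
  obtain ⟨k, hk, j, hj⟩ := h M (AlgebraicClosure M) P L (tame_iff.1 hL)
    (γ : AlgebraicClosure M) γ.ne_zero (Nat.mul_le_mul_right _ (Nat.mul_le_mul_left _
      ((Pool.Agent.H72.PB.natDegree_le_dg L (γ : AlgebraicClosure M)).trans hdeg))) hlt
  refine hγ k hk ?_
  rw [mem_grp]
  refine ⟨j, ?_⟩
  push_cast
  exact hj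

private theorem sparse [IsGalois ℚ K] (b : Fin r → 𝓞 K) (hb : IsIndependent b) :
    SparseBound b M := by
  classical
  intro D N d P hD
  obtain ⟨C', hC'⟩ := Pool.Agent.H11.TV.uni_sparse M (grp M b hb) N d
  obtain ⟨c₁, hc₁, hinp⟩ := input M b hb D C' P hD
  obtain ⟨c, hc, h⟩ := hC' c₁ hc₁
  refine ⟨min c c₁, lt_min hc hc₁, ?_⟩
  intro L hL n Γ hΓ V hV htr e m g hm hg hne hmem θ hθ
  have hterm : ∀ j, Pool.Agent.H11.TH.term (m j) (g j) = C (g j) * ∏ i, X i ^ m j i := by
    intro j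
    unfold Pool.Agent.H11.TH.term
    rw [monomial_eq]
    congr 1
    rw [Finsupp.prod_fintype _ _ (fun i => pow_zero _)]
    rfl
  have h1 : (∑ j, Pool.Agent.H11.TH.term (m j) (g j)) = ∑ j, C (g j) * ∏ i, X i ^ m j i :=
    Finset.sum_congr rfl fun j _ => hterm j
  refine (min_le_left c c₁).trans (h L (hinp L (tame_mono (min_le_right _ _) hL)) n Γ ?_ V hV.2 ?_
    e m g hm (fun j => dg_le L d _ (hg j)) (by rw [h1]; exact hne) (by rw [h1]; exact hmem) θ hθ)
  · intro x hx
    refine hΓ x fun i => ?_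
    exact (mem_grp M b hb (x i)).1 (hx i)
  · intro B γ hB1 hB2 hγ hne' hsub
    exact htr B γ ⟨hB1, hB2⟩ hγ hne' hsub

private theorem bogomolov [IsGalois ℚ K] (b : Fin r → 𝓞 K) (hb : IsIndependent b) :
    BogomolovBound b M := by
  classical
  intro D n ω₀ P hD
  obtain ⟨C', hC'⟩ := Pool.Agent.H11.TV.uni_B M (grp M b hb) n ω₀
  obtain ⟨c₁, hc₁, hinp⟩ := input M b hb D C' P hD
  obtain ⟨c, hc, h⟩ := hC' c₁ hc₁
  refine ⟨min c c₁, lt_min hc hc₁, ?_⟩
  intro Γ hΓ hL V hV _ htr hω θ hθ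
  obtain ⟨_, ⟨Z, d', δ, hZ, hZne, hZd, hVZ, hZδ, rfl⟩, hω₀⟩ := hω
  refine (min_le_left c c₁).trans (h (fieldOf Γ)
    (hinp (fieldOf Γ) (tame_mono (min_le_right _ _) hL)) Γ ?_ le_rfl V hV.2 ?_
    ⟨Z, d', δ, hZ, hZne, hZd, hZδ, hVZ, hω₀⟩ θ hθ)
  · intro x hx
    refine hΓ x fun i => ?_
    exact (mem_grp M b hb (x i)).1 (hx i)
  · intro B γ hB1 hB2 hγ hne hsub
    exact htr B γ ⟨hB1, hB2⟩ hγ hne hsub

end

/-- **Bounded degree over fields of radicals and roots of unity: points and all subvarieties of tori.** Let `K` be a number field, Galois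
over `ℚ`, and `b_1, …, b_r ∈ 𝓞_K` nonzero and multiplicatively independent. The height of the numbers outside `Γ_b` of bounded degree over
tame fields is bounded below, uniformly in all number fields `M ⊃ K` of bounded degree; for every number field `M ⊃ K` the essential
minimum of `Γ`-transverse subvarieties `V` of tori is bounded below if `V` has a sparse equation with coefficients of bounded degree over a
tame field, or if `M(Γ)` is tame and `ω_{M(Γ)}(V)` is bounded. -/
theorem result (K : Type) [Field K] [NumberField K] [IsGalois ℚ K] (r : ℕ) (b : Fin r → 𝓞 K)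
    (hb : IsIndependent b) :
    ElementBound b ∧ ∀ (M : Type) [Field M] [NumberField M] [Algebra K M],
      SparseBound b M ∧ BogomolovBound b M :=
  ⟨element b hb, fun M _ _ _ => ⟨sparse M b hb, bogomolov M b hb⟩⟩

end Pool.Agent.Results.MP_187c26_nt.RadicalBogomolov
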