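import Pool.Agent.H33.V6.Var
import Pool.Agent.H33.V6.Fam3

/-!
# Lehmer bounds for subvarieties of tori over fields of radicals and roots of unity

Let `b ≥ 2` be an integer, `ι ≥ 0`, `K` a number field. A field `K ⊂ L ⊂ K̄` is radical (with parameters `P`, `ι`) if every finite
subset of `L` lies in a field `K(ξ, x, y)`, where `ξ^n = 1`, `x^m = b`, `[ℚ(x) : ℚ] = m`, `n` is prime to `m b`,
`log [𝓞_(ℚ(x)) : ℤ[x]] ≤ ι m`, and `y` has degree at most `P` over `K(ξ, x)`. There is no condition on the primes that divide `m`.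

* `h(α) ≥ c N⁻¹ (1 + log N)^(-300)` with `N = [K : ℚ] [L(α) : L] P`, for all radical `L` and all `α ∈ K̄*` no power of which is a
  power of `b`; `c = c(b, ι) > 0`.
* `μ_ess(V) ≥ c ([K : ℚ] P ω_L(V))^(-(1 + ε) max(1, r))` for all radical `L` (such as `L = K(Γ)`), all groups `Γ ⊂ 𝔾_m^n(K̄)`
  which contain `⟨b⟩^n` and all `Γ`-transverse subvarieties `V ≠ 𝔾_m^n` of any dimension on which no `r + 1` independent characters
  are constant; `c = c(b, ι, n, r, ε) > 0`. (`r ≤ n`; exponent `1 + ε` unless two independent characters are constant on `V`.)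
* Root fields: let `b` be squarefree, `W` a set of primes, `4 ∑ (log p) / p ≤ ι` for the sum over the `p ∈ W` with
  `p² ∣ b^(p-1) - 1` (no condition on `W` if `W` is finite and `ι` is large), and let `b^(1/m)` be compatible roots. The field
  generated over any number field `K` by all roots `b^(1/m)`, `m` composed of primes of `W`, and by all roots of unity of order
  prime to `b` and `W` is radical with `P = 1` and this `ι`.
-/

set_option autoImplicit false
set_option linter.unusedSectionVars false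

open MvPolynomial Filter Topology IntermediateField

namespace Pool.Agent.Results.MP_187c26_nt.RadicalLehmer

/-- The group of points over the algebraic closure of `K` of the torus `𝔾_m^n`. -/
abbrev Torus (K : Type) [Field K] (n : ℕ) : Type := Fin n → (AlgebraicClosure K)ˣ

section Definitions

/-- The index of the order `ℤ[x]` in the ring of integers of `ℚ(x)`. -/
noncomputable def orderIndex {Ω : Type} [Field Ω] [CharZero Ω] (x : Ω) : ℕ :=
  (Algebra.adjoin ℤ ({x} : Set Ω)).toSubring.toAddSubgroup.relIndex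
    (ℚ⟮x⟯.toSubalgebra.toSubring ⊓ (integralClosure ℤ Ω).toSubring).toAddSubgroup

variable {K : Type} [Field K] [NumberField K] {n : ℕ}

/-- The coordinate vector of a point of `𝔾_m^n`. -/
def coords (x : Torus K n) : Fin n → AlgebraicClosure K := fun i => (x i : AlgebraicClosure K)

/-- The canonical height `h_G(x) = ∑ h(x_i)`, with `h` the absolute logarithmic Weil height. -/
noncomputable def height (x : Torus K n) : ℝ := ∑ i, NumberField.absLogHeight₁ (coords x i)

/-- The ideal of all polynomials over the algebraic closure vanishing on `V`. -/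
noncomputable def idealOf (V : Set (Torus K n)) :
    Ideal (MvPolynomial (Fin n) (AlgebraicClosure K)) :=
  vanishingIdeal (AlgebraicClosure K) (coords '' V)

/-- `Z` is a Zariski closed subset of `𝔾_m^n` defined over `L`. -/
def IsClosedOver (L : IntermediateField K (AlgebraicClosure K)) (Z : Set (Torus K n)) : Prop :=
  ∃ J : Ideal (MvPolynomial (Fin n) L), Z = {x | coords x ∈ zeroLocus (AlgebraicClosure K) J}

/-- Subvarieties: irreducible closed subsets (over the algebraic closure). -/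
def IsSubvariety (V : Set (Torus K n)) : Prop := IsClosedOver ⊤ V ∧ (idealOf V).IsPrime

/-- All irreducible components of `Z` have dimension `d`. -/
def IsEquidimensional (Z : Set (Torus K n)) (d : ℕ) : Prop :=
  Z.Nonempty ∧ ∀ P ∈ (idealOf Z).minimalPrimes,
    ringKrullDim (MvPolynomial (Fin n) (AlgebraicClosure K) ⧸ P) = d

/-- The space of functions on `Z` that are restrictions of polynomials of degree at most `m`
in each variable, that is, of global sections of `O(m,...,m)` on `(ℙ^1)^n`. -/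
noncomputable def sections (Z : Set (Torus K n)) (m : ℕ) :
    Submodule (AlgebraicClosure K) (Z → AlgebraicClosure K) :=
  (restrictDegree (Fin n) (AlgebraicClosure K) m).map
    (LinearMap.pi fun z : Z => (aeval (coords (z : Torus K n))).toLinearMap)

/-- `Z`, of pure dimension `d`, has degree `δ` with respect to `O(1,...,1)` on `(ℙ^1)^n`:
its Hilbert function is asymptotic to `δ m^d / d!`. -/
def HasDegree (Z : Set (Torus K n)) (d : ℕ) (δ : ℝ) : Prop :=
  Tendsto (fun m : ℕ => (d.factorial : ℝ) *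
    (Module.finrank (AlgebraicClosure K) (sections Z m) : ℝ) / (m : ℝ) ^ d) atTop (𝓝 δ)

/-- `ω = deg(Z)^(1/(n - dim Z))` for some equidimensional Zariski closed `Z ⊊ 𝔾_m^n` defined over `L` and
containing `V`. The obstruction index `ω_L(V)` is the minimum of these `ω`. -/
def ObstructionValue (L : IntermediateField K (AlgebraicClosure K)) (V : Set (Torus K n))
    (ω : ℝ) : Prop :=
  ∃ (Z : Set (Torus K n)) (d : ℕ) (δ : ℝ), IsClosedOver L Z ∧ Z ≠ Set.univ ∧
    IsEquidimensional Z d ∧ V ⊆ Z ∧ HasDegree Z d δ ∧ ω = δ ^ (1 / ((n : ℝ) - d))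

/-- The points of height at most `θ` are Zariski dense in `V`. The essential minimum `μ_ess(V)` is the
infimum of these `θ`. -/
def EssentialBound (V : Set (Torus K n)) (θ : ℝ) : Prop :=
  idealOf {x | x ∈ V ∧ height x ≤ θ} ≤ idealOf V

/-- The saturation of `Γ`. -/
def sat (Γ : Subgroup (Torus K n)) : Set (Torus K n) := {x | ∃ m : ℕ, 1 ≤ m ∧ x ^ m ∈ Γ}

/-- `V` is `Γ`-transverse: no proper `Γ`-torsion subvariety `B γ`, with `B` a connected algebraic
subgroup and `γ` in the saturation of `Γ`, contains `V`. -/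
def IsTransverse (Γ : Subgroup (Torus K n)) (V : Set (Torus K n)) : Prop :=
  ∀ (B : Subgroup (Torus K n)) (γ : Torus K n), IsSubvariety (B : Set (Torus K n)) → γ ∈ sat Γ →
    (fun b => b * γ) '' (B : Set (Torus K n)) ≠ Set.univ →
    ¬ V ⊆ (fun b => b * γ) '' (B : Set (Torus K n))

/-- `y` has degree at most `d` over `L`. -/
def DegreeLE (L : IntermediateField K (AlgebraicClosure K)) (d : ℕ)
    (y : AlgebraicClosure K) : Prop :=
  ∃ P : Polynomial L, P ≠ 0 ∧ P.natDegree ≤ d ∧ Polynomial.aeval y P = 0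

/-- Every finite subset of `L` lies in a field `K(ξ, x, y)`, `ξ ^ n = 1`, `x ^ m = b`, `[ℚ(x) : ℚ] = m`, such that `n` is prime to
`m b`, the logarithm of the index of `ℤ[x]` in the ring of integers of `ℚ(x)` is at most `ι m`, and `y` has degree at most `P` over
`K(ξ, x)`. -/
def IsRadical (b P : ℕ) (ι : ℝ) (L : IntermediateField K (AlgebraicClosure K)) : Prop :=
  ∀ S : Finset (AlgebraicClosure K), (∀ z ∈ S, z ∈ L) → ∃ (m n : ℕ) (ξ x y : AlgebraicClosure K),
    1 ≤ m ∧ 1 ≤ n ∧ n.Coprime (m * b) ∧ ξ ^ n = 1 ∧ x ^ m = (b : AlgebraicClosure K) ∧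
    Module.finrank ℚ ℚ⟮x⟯ = m ∧ Real.log (orderIndex x) ≤ ι * m ∧
    DegreeLE (IntermediateField.adjoin K {ξ, x}) P y ∧
    ∀ z ∈ S, z ∈ IntermediateField.adjoin K {ξ, x, y}

/-- The character `x ↦ ∏ x_l ^ (e l)` of `𝔾_m^n`. -/
noncomputable def character (e : Fin n → ℤ) (x : Torus K n) : (AlgebraicClosure K)ˣ := ∏ l, x l ^ e l

/-- The characters that are constant on `V` have rank at most `r`: of `r + 1` linearly independent characters at least one is
not constant on `V`. -/
def ConstantRankLE (V : Set (Torus K n)) (r : ℕ) : Prop :=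
  ∀ e : Fin (r + 1) → Fin n → ℤ, LinearIndependent ℚ (fun i l => (e i l : ℚ)) →
    ∃ i, ∀ γ : (AlgebraicClosure K)ˣ, ∃ x ∈ V, character (e i) x ≠ γ

/-- `Γ` contains all points whose coordinates are powers of `b`. -/
def ContainsPowers (b : ℕ) (Γ : Subgroup (Torus K n)) : Prop :=
  ∀ x : Torus K n, (∀ l, ∃ j : ℤ, coords x l = (b : AlgebraicClosure K) ^ j) → x ∈ Γ

/-- The bound for elements, for all number fields `K`. -/
def ElementBound (b : ℕ) (ι c : ℝ) : Prop :=
  ∀ (K : Type) [Field K] [NumberField K] (L : IntermediateField K (AlgebraicClosure K))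
    (P d N : ℕ) (α : (AlgebraicClosure K)ˣ), IsRadical b P ι L →
    DegreeLE L d (α : AlgebraicClosure K) →
    (∀ k : ℕ, 1 ≤ k → ∀ j : ℤ, (α : AlgebraicClosure K) ^ k ≠ (b : AlgebraicClosure K) ^ j) →
    N = Module.finrank ℚ K * d * P →
    c ≤ (N : ℝ) * (1 + Real.log N) ^ 300 * NumberField.absLogHeight₁ (α : AlgebraicClosure K)

/-- The bound for subvarieties of `𝔾_m^n`, for all number fields `K`. -/
def VarietyBound (b : ℕ) (ι : ℝ) (n r : ℕ) (ε c : ℝ) : Prop :=
  ∀ (K : Type) [Field K] [NumberField K] (L : IntermediateField K (AlgebraicClosure K))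
    (P : ℕ) (Γ : Subgroup (Torus K n)), IsRadical b P ι L → ContainsPowers b Γ →
    ∀ V : Set (Torus K n), IsSubvariety V → IsTransverse Γ V → ConstantRankLE V r →
    ∀ ω : ℝ, ObstructionValue L V ω → ∀ θ : ℝ, EssentialBound V θ →
    c ≤ ((Module.finrank ℚ K : ℝ) * P * ω) ^ ((1 + ε) * max 1 (r : ℝ)) * θ

/-- The field generated over `K` by the roots `r m`, `m` composed of primes of `W`, and by all roots of unity of order prime to `b`
and to all primes of `W`. -/
noncomputable def rootField (K : Type) [Field K] [NumberField K] (b : ℕ) (W : Set ℕ)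
    (r : ℕ → AlgebraicClosure K) : IntermediateField K (AlgebraicClosure K) :=
  IntermediateField.adjoin K
    ({z | ∃ m : ℕ, (1 ≤ m ∧ ∀ p : ℕ, p.Prime → p ∣ m → p ∈ W) ∧ z = r m} ∪
    {z | ∃ n : ℕ, 1 ≤ n ∧ n.Coprime b ∧ (∀ p : ℕ, p.Prime → p ∈ W → n.Coprime p) ∧ z ^ n = 1})

/-- The fields of compatible roots `r m = b^(1/m)` are radical if `4 ∑ (log p) / p ≤ ι` for the sum over the `p ∈ W` with
`p² ∣ b^(p-1) - 1`. -/
def RootFieldsRadical (b : ℕ) (ι : ℝ) : Prop :=
  ∀ W : Set ℕ, (∀ p ∈ W, p.Prime) →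
    (∀ T : Finset ℕ, (∀ p ∈ T, p ∈ W ∧ p ^ 2 ∣ b ^ (p - 1) - 1) →
      ∑ p ∈ T, 4 * Real.log p / p ≤ ι) →
    ∀ (K : Type) [Field K] [NumberField K] (r : ℕ → AlgebraicClosure K),
      r 1 = (b : AlgebraicClosure K) → (∀ m k : ℕ, 1 ≤ m → 1 ≤ k → r (m * k) ^ k = r m) →
      IsRadical b 1 ι (rootField K b W r)

end Definitions

private lemma radical_iff {K : Type} [Field K] [NumberField K] {b P : ℕ} {ι : ℝ}
    {L : IntermediateField K (AlgebraicClosure K)} :
    IsRadical b P ι L ↔ Pool.Agent.H33.TR.InRadG b P ι L := Iff.rfl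

private lemma natDegree_le {K : Type} [Field K] [NumberField K]
    (L : IntermediateField K (AlgebraicClosure K)) (d : ℕ) (y : AlgebraicClosure K)
    (h : DegreeLE L d y) : (minpoly L y).natDegree ≤ d := by
  obtain ⟨P, hP0, hPd, hP⟩ := h
  exact (Polynomial.natDegree_le_natDegree (minpoly.degree_le_of_ne_zero L y hP0 hP)).trans hPd

private theorem element (b : ℕ) (hb : 2 ≤ b) (ι : ℝ) (hι : 0 ≤ ι) :
    ∃ c : ℝ, 0 < c ∧ ElementBound b ι c := by
  obtain ⟨c, hc, h⟩ := Pool.Agent.H33.V6.ptsV b hb ι hι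
  refine ⟨c, hc, ?_⟩
  intro K _ _ L P d N α hL hα hnot hN
  refine h K (AlgebraicClosure K) P L (radical_iff.1 hL) (α : AlgebraicClosure K) N α.ne_zero
    hnot ?_
  rw [hN]
  exact Nat.mul_le_mul_right _ (Nat.mul_le_mul_left _ (natDegree_le L d _ hα))

private theorem variety (b : ℕ) (hb : 2 ≤ b) (ι : ℝ) (hι : 0 ≤ ι) (n r : ℕ) (ε : ℝ)
    (hε : 0 < ε) : ∃ c : ℝ, 0 < c ∧ VarietyBound b ι n r ε c := by
  obtain ⟨c, hc, h⟩ := Pool.Agent.H33.V6.rad_BV n r b hb ι hι ε hε
  refine ⟨c, hc, ?_⟩
  intro K _ _ L P Γ hL hΓ V hV htr hr ω hω θ hθ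
  obtain ⟨Z, d', δ, hZ, hZne, hZd, hVZ, hZδ, rfl⟩ := hω
  have h1 := h K (AlgebraicClosure K) P L (radical_iff.1 hL) Γ (fun x hx => hΓ x hx) V hV.2
    (fun B γ hB1 hB2 hγ hne hsub => htr B γ ⟨hB1, hB2⟩ hγ hne hsub) hr
    Z d' δ _ hZ hZne hZd hZδ hVZ le_rfl θ hθ
  have h2 : ((Module.finrank ℚ K * P : ℕ) : ℝ) = (Module.finrank ℚ K : ℝ) * P := by
    push_cast
    ring
  rw [h2] at h1
  exact h1

private theorem roots (b : ℕ) (hb : 2 ≤ b) (hs : Squarefree b) (ι : ℝ) :
    RootFieldsRadical b ι := by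
  intro W _ hι K _ _ r hr1 hr
  exact radical_iff.2 (Pool.Agent.H33.V6.fam_rad3 b hb hs W ι hι K (AlgebraicClosure K) r hr1 hr)

/-- **Lehmer bounds for subvarieties of tori over fields of radicals and roots of unity.** For all `b ≥ 2` and `ι ≥ 0` the height of
the numbers outside the saturation of `⟨b⟩` over radical fields `L` is at least `c N⁻¹ (1 + log N)^(-300)`, `N = [K : ℚ] P [L(α) : L]`,
and the essential minimum of `Γ`-transverse subvarieties `V` of `𝔾_m^n`, `Γ ⊇ ⟨b⟩^n`, is at least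
`c ([K : ℚ] P ω_L(V))^(-(1 + ε) max(1, r))`, where `r` is the rank of the group of characters constant on `V`. If `b` is squarefree, the
fields generated by all compatible roots `b^(1/m)`, `m` composed of primes of `W`, and by all roots of unity of order prime to `b` and
`W` are radical, if `4 ∑ (log p) / p ≤ ι` over the `p ∈ W` with `p² ∣ b^(p-1) - 1`. -/
theorem result : ∀ b : ℕ, 2 ≤ b → ∀ ι : ℝ, 0 ≤ ι →
    (∃ c : ℝ, 0 < c ∧ ElementBound b ι c) ∧
    (∀ (n r : ℕ) (ε : ℝ), 0 < ε → ∃ c : ℝ, 0 < c ∧ VarietyBound b ι n r ε c) ∧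
    (Squarefree b → RootFieldsRadical b ι) :=
  fun b hb ι hι => ⟨element b hb ι hι, fun n r ε hε => variety b hb ι hι n r ε hε,
    fun hs => roots b hb hs ι⟩

end Pool.Agent.Results.MP_187c26_nt.RadicalLehmer
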