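import Mathlib

/-!
# Finite rank subgroups of tori that are not Lehmer groups

For `G = 𝔾_m^n`, `n ≥ 2`, over any number field `K`, we exhibit a subgroup `Γ` of rank one
(the division closure of the cyclic group generated by `(ℓ_0, …, ℓ_{n-1})`, the first `n` primes)
such that the products `ω_{K(Γ)}(V) μ_ess(V)` are not bounded below by a positive constant on
`Γ`-transverse subvarieties `V`. The subvarieties used are the points
`(ℓ_1^{2/N}, ℓ_2^{1/N}, …, ℓ_{n-1}^{1/N}, ℓ_0^{1/N})`, which have coordinates in `K(Γ)`.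
-/

set_option autoImplicit false
set_option linter.unusedSectionVars false

open MvPolynomial Filter Topology

namespace Pool.Agent.Results.MP_187c26_nt.RankOneNotLehmer

/-- The group of points over the algebraic closure of `K` of the torus `𝔾_m^n`. -/
abbrev Torus (K : Type) [Field K] (n : ℕ) : Type := Fin n → (AlgebraicClosure K)ˣ

section Definitions

variable {K : Type} [Field K] [NumberField K] {n : ℕ}

/-- The coordinate vector of a point of `𝔾_m^n`. -/
def coords (x : Torus K n) : Fin n → AlgebraicClosure K := fun i => (x i : AlgebraicClosure K)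

/-- The canonical height `h_G(x) = ∑ h(x_i)`, with `h` the absolute logarithmic Weil height. -/
noncomputable def height (x : Torus K n) : ℝ := ∑ i, NumberField.absLogHeight₁ (coords x i)

/-- The ideal of all polynomials over the algebraic closure vanishing on `V`. -/
noncomputable def idealOf (V : Set (Torus K n)) :
    Ideal (MvPolynomial (Fin n) (AlgebraicClosure K)) :=
  vanishingIdeal (AlgebraicClosure K) (coords '' V)

/-- `Z` is a Zariski closed subset of `𝔾_m^n` defined over `L`. -/
def IsClosedOver (L : IntermediateField K (AlgebraicClosure K)) (Z : Set (Torus K n)) : Prop :=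
  ∃ J : Ideal (MvPolynomial (Fin n) L), Z = {x | coords x ∈ zeroLocus (AlgebraicClosure K) J}

/-- Subvarieties: irreducible closed subsets (over the algebraic closure). -/
def IsSubvariety (V : Set (Torus K n)) : Prop := IsClosedOver ⊤ V ∧ (idealOf V).IsPrime

/-- All irreducible components of `Z` have dimension `d`. -/
def IsEquidimensional (Z : Set (Torus K n)) (d : ℕ) : Prop :=
  Z.Nonempty ∧ ∀ P ∈ (idealOf Z).minimalPrimes,
    ringKrullDim (MvPolynomial (Fin n) (AlgebraicClosure K) ⧸ P) = d

/-- The space of functions on `Z` that are restrictions of polynomials of degree at most `m`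
in each variable, that is, of global sections of `O(m,...,m)` on `(ℙ^1)^n`. -/
noncomputable def sections (Z : Set (Torus K n)) (m : ℕ) :
    Submodule (AlgebraicClosure K) (Z → AlgebraicClosure K) :=
  (restrictDegree (Fin n) (AlgebraicClosure K) m).map
    (LinearMap.pi fun z : Z => (aeval (coords (z : Torus K n))).toLinearMap)

/-- `Z`, of pure dimension `d`, has degree `δ` with respect to `O(1,...,1)` on `(ℙ^1)^n`:
its Hilbert function is asymptotic to `δ m^d / d!`. -/
def HasDegree (Z : Set (Torus K n)) (d : ℕ) (δ : ℝ) : Prop :=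
  Tendsto (fun m : ℕ => (d.factorial : ℝ) *
    (Module.finrank (AlgebraicClosure K) (sections Z m) : ℝ) / (m : ℝ) ^ d) atTop (𝓝 δ)

/-- The obstruction index of `V` relative to `L`. -/
noncomputable def obstructionIndex (L : IntermediateField K (AlgebraicClosure K))
    (V : Set (Torus K n)) : ℝ :=
  sInf {ω | ∃ (Z : Set (Torus K n)) (d : ℕ) (δ : ℝ), IsClosedOver L Z ∧ Z ≠ Set.univ ∧
    IsEquidimensional Z d ∧ V ⊆ Z ∧ HasDegree Z d δ ∧ ω = δ ^ (1 / ((n : ℝ) - d))}

/-- The essential minimum of `V`. -/
noncomputable def essMin (V : Set (Torus K n)) : ℝ :=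
  sInf {θ | idealOf {x | x ∈ V ∧ height x ≤ θ} ≤ idealOf V}

/-- The field generated over `K` by the coordinates of the points of `Γ`. -/
noncomputable def fieldOf (Γ : Subgroup (Torus K n)) : IntermediateField K (AlgebraicClosure K) :=
  IntermediateField.adjoin K {y | ∃ γ ∈ Γ, ∃ i, y = coords γ i}

/-- The saturation of `Γ`. -/
def sat (Γ : Subgroup (Torus K n)) : Set (Torus K n) := {x | ∃ m : ℕ, 1 ≤ m ∧ x ^ m ∈ Γ}

/-- `V` is `Γ`-transverse: no proper `Γ`-torsion subvariety `B γ`, with `B` a connected algebraic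
subgroup and `γ` in the saturation of `Γ`, contains `V`. -/
def IsTransverse (Γ : Subgroup (Torus K n)) (V : Set (Torus K n)) : Prop :=
  ∀ (B : Subgroup (Torus K n)) (γ : Torus K n), IsSubvariety (B : Set (Torus K n)) → γ ∈ sat Γ →
    (fun b => b * γ) '' (B : Set (Torus K n)) ≠ Set.univ →
    ¬ V ⊆ (fun b => b * γ) '' (B : Set (Torus K n))

/-- `Γ` is a Lehmer group. -/
def IsLehmerGroup (Γ : Subgroup (Torus K n)) : Prop :=
  ∃ c : ℝ, 0 < c ∧ ∀ V : Set (Torus K n), IsSubvariety V → V ≠ Set.univ → IsTransverse Γ V →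
    c ≤ obstructionIndex (fieldOf Γ) V * essMin V

end Definitions

section HeightLemmas

open NumberField Height

lemma mulHeight_natCast (E : Type*) [Field E] [NumberField E] (a : ℕ) (ha : a ≠ 0) :
    mulHeight₁ (a : E) = (a : ℝ) ^ Module.finrank ℚ E := by
  rw [NumberField.mulHeight₁_eq]
  have h1 : ∀ v : FinitePlace E, max (v (a : E)) 1 = 1 := by
    intro v
    apply max_eq_right
    have hv : IsNonarchimedean (v ·) := FinitePlace.add_le v
    simpa using IsNonarchimedean.apply_natCast_le_one hv (n := a)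
  rw [finprod_eq_one_of_forall_eq_one h1, mul_one]
  have h2 : ∀ v : InfinitePlace E, max (v (a : E)) 1 = (a : ℝ) := by
    intro v
    have : v (a : E) = a := by
      simp
    rw [this]
    apply max_eq_left
    exact_mod_cast Nat.one_le_iff_ne_zero.mpr ha
  simp_rw [h2]
  rw [Finset.prod_pow_eq_pow_sum, InfinitePlace.sum_mult_eq]

lemma absLogHeight_of_pow_eq {F : Type*} [Field F] [CharZero F] (x : F) (N a : ℕ) (hN : N ≠ 0)
    (ha : a ≠ 0) (h : x ^ N = (a : F)) : absLogHeight₁ x = Real.log a / N := by
  have hint : IsIntegral ℚ x := by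
    refine ⟨Polynomial.X ^ N - Polynomial.C (a : ℚ), Polynomial.monic_X_pow_sub_C _ hN, ?_⟩
    simp [h]
  unfold absLogHeight₁ absMulHeight₁
  rw [dif_pos hint]
  have : FiniteDimensional ℚ (IntermediateField.adjoin ℚ {x}) :=
    IntermediateField.adjoin.finiteDimensional hint
  have : NumberField (IntermediateField.adjoin ℚ {x}) := {}
  set E := IntermediateField.adjoin ℚ {x} with hE
  have hg : (IntermediateField.AdjoinSimple.gen ℚ x) ^ N = ((a : ℕ) : E) := by
    apply Subtype.ext
    simp [h]
  have h1 : mulHeight₁ (IntermediateField.AdjoinSimple.gen ℚ x) ^ N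
      = (a : ℝ) ^ Module.finrank ℚ E := by
    rw [← mulHeight₁_pow, hg, mulHeight_natCast _ _ ha]
  have hpos : 0 < mulHeight₁ (IntermediateField.AdjoinSimple.gen ℚ x) := mulHeight₁_pos _
  have hfin : (0 : ℝ) < Module.finrank ℚ E := by exact_mod_cast Module.finrank_pos
  rw [Real.log_rpow hpos]
  have h2 : (N : ℝ) * Real.log (mulHeight₁ (IntermediateField.AdjoinSimple.gen ℚ x))
      = Module.finrank ℚ E * Real.log a := by
    rw [← Real.log_pow, h1, Real.log_pow]
  have hN' : (N : ℝ) ≠ 0 := by exact_mod_cast hN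
  have hfin' : (Module.finrank ℚ E : ℝ) ≠ 0 := hfin.ne'
  change ((Module.finrank ℚ E : ℝ))⁻¹ *
    Real.log (mulHeight₁ (IntermediateField.AdjoinSimple.gen ℚ x)) = _
  rw [inv_mul_eq_div, div_eq_div_iff hfin' hN', mul_comm, h2, mul_comm]

end HeightLemmas

section Geometry

variable {K : Type} [Field K] [NumberField K] {n : ℕ}

/-- a monomial with natural exponents as a monoid hom on a subgroup -/
noncomputable def monoHom (B : Subgroup (Torus K n)) (e : Fin n →₀ ℕ) : B →* AlgebraicClosure K where
  toFun b := ∏ i, (coords (b : Torus K n) i) ^ (e i)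
  map_one' := by simp [coords]
  map_mul' a b := by simp [coords, mul_pow, Finset.prod_mul_distrib]

lemma coords_ne_zero (x : Torus K n) (i : Fin n) : coords x i ≠ 0 := Units.ne_zero _

lemma aeval_coords (x : Torus K n) (f : MvPolynomial (Fin n) (AlgebraicClosure K)) :
    aeval (coords x) f = ∑ e ∈ f.support, f.coeff e * ∏ i, (coords x i) ^ (e i) := by
  rw [aeval_def, eval₂_eq']
  simp

/-- A proper Zariski closed subgroup is killed by two distinct monomials agreeing on it. -/
lemma exists_monomials (B : Subgroup (Torus K n)) (L : IntermediateField K (AlgebraicClosure K))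
    (hB : IsClosedOver L (B : Set (Torus K n)))
    (hne : (B : Set (Torus K n)) ≠ Set.univ) :
    ∃ e e' : Fin n →₀ ℕ, e ≠ e' ∧ ∀ b ∈ B, ∏ i, (coords b i) ^ (e i) = ∏ i, (coords b i) ^ (e' i) := by
  obtain ⟨J, hJ⟩ := hB
  obtain ⟨y, hy⟩ := (Set.ne_univ_iff_exists_notMem _).1 hne
  rw [hJ] at hy
  simp only [Set.mem_ofPred_eq, mem_zeroLocus_iff, not_forall] at hy
  obtain ⟨f, hf, hfy⟩ := hy
  -- polynomial over the algebraic closure
  set g : MvPolynomial (Fin n) (AlgebraicClosure K) := map (algebraMap L (AlgebraicClosure K)) f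
    with hg
  have hgx : ∀ x : Torus K n, aeval (coords x) g = aeval (coords x) f := by
    intro x
    rw [hg, aeval_map_algebraMap]
  have hgB : ∀ b ∈ B, aeval (coords b) g = 0 := by
    intro b hb
    have : b ∈ (B : Set (Torus K n)) := hb
    rw [hJ] at this
    rw [hgx]
    exact this f hf
  have hgne : g ≠ 0 := by
    intro h0
    apply hfy
    rw [← hgx, h0, map_zero]
  by_contra hcon
  push Not at hcon
  have hinj : Function.Injective (monoHom B) := by
    intro e e' hee
    by_contra hne'
    obtain ⟨b, hb, hb'⟩ := hcon e e' hne'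
    exact hb' (DFunLike.congr_fun hee ⟨b, hb⟩)
  have hli := (linearIndependent_monoidHom B (AlgebraicClosure K)).comp _ hinj
  rw [linearIndependent_iff'] at hli
  have hzero := hli g.support (fun e => g.coeff e) (by
    funext b
    have := hgB b.1 b.2
    rw [aeval_coords] at this
    simp only [Finset.sum_apply, Pi.smul_apply, smul_eq_mul, Pi.zero_apply, Function.comp_apply]
    exact this)
  apply hgne
  ext e
  rw [coeff_zero]
  by_cases he : e ∈ g.support
  · exact hzero e he
  · simpa using he

/-- A proper Zariski closed subgroup lies in the kernel of a nontrivial character. -/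
lemma exists_character (B : Subgroup (Torus K n)) (L : IntermediateField K (AlgebraicClosure K))
    (hB : IsClosedOver L (B : Set (Torus K n)))
    (hne : (B : Set (Torus K n)) ≠ Set.univ) :
    ∃ a : Fin n → ℤ, a ≠ 0 ∧ ∀ b ∈ B, ∏ i, (b i) ^ (a i) = 1 := by
  obtain ⟨e, e', hee, h⟩ := exists_monomials B L hB hne
  refine ⟨fun i => (e i : ℤ) - e' i, ?_, ?_⟩
  · intro h0
    apply hee
    ext i
    have := congrFun h0 i
    simp only [Pi.zero_apply] at this
    omega
  · intro b hb
    have h1 := h b hb
    have h2 : ∏ i, (b i) ^ (e i) = ∏ i, (b i) ^ (e' i) := by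
      apply Units.ext
      push_cast
      exact h1
    simp only [zpow_sub, zpow_natCast]
    rw [Finset.prod_mul_distrib, Finset.prod_inv_distrib, h2, mul_inv_cancel]

lemma idealOf_singleton_isPrime (P : Torus K n) : (idealOf ({P} : Set (Torus K n))).IsPrime := by
  unfold idealOf
  rw [Set.image_singleton]
  infer_instance

lemma idealOf_singleton_isMaximal (P : Torus K n) :
    (idealOf ({P} : Set (Torus K n))).IsMaximal := by
  unfold idealOf
  rw [Set.image_singleton]
  infer_instance

lemma closed_singleton (L : IntermediateField K (AlgebraicClosure K)) (P : Torus K n)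
    (hP : ∀ i, coords P i ∈ L) : IsClosedOver L ({P} : Set (Torus K n)) := by
  refine ⟨Ideal.span (Set.range fun i => X i - C ⟨coords P i, hP i⟩), ?_⟩
  ext x
  rw [zeroLocus_span]
  simp only [Set.mem_singleton_iff, Set.mem_ofPred_eq, Set.mem_range, forall_exists_index,
    forall_apply_eq_imp_iff]
  constructor
  · rintro rfl i
    simp
  · intro h
    funext i
    apply Units.ext
    have := h i
    simp only [map_sub, aeval_X, aeval_C] at this
    exact sub_eq_zero.1 this

lemma singleton_ne_univ (hn : 1 ≤ n) (P : Torus K n) : ({P} : Set (Torus K n)) ≠ Set.univ := by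
  intro h
  have h1 : (fun i => P i * (Units.mk0 (2 : AlgebraicClosure K) two_ne_zero)) ∈
    ({P} : Set (Torus K n)) := by rw [h]; trivial
  rw [Set.mem_singleton_iff] at h1
  have h2 := congrFun h1 ⟨0, hn⟩
  simp only [mul_eq_left] at h2
  have h3 := congrArg Units.val h2
  simp at h3

lemma finrank_sections_singleton (P : Torus K n) (m : ℕ) :
    Module.finrank (AlgebraicClosure K) (sections ({P} : Set (Torus K n)) m) = 1 := by
  have htop : sections ({P} : Set (Torus K n)) m = ⊤ := by
    rw [eq_top_iff]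
    intro f _
    refine ⟨C (f ⟨P, rfl⟩), ?_, ?_⟩
    · rw [SetLike.mem_coe, mem_restrictDegree]
      intro s hs i
      classical
      have : s = 0 := by
        rw [support_C] at hs
        split_ifs at hs with h0
        · simp at hs
        · simpa using hs
      simp [this]
    · funext z
      obtain ⟨z, hz⟩ := z
      rw [Set.mem_singleton_iff] at hz
      subst hz
      simp
  rw [htop, finrank_top]
  have : Unique ({P} : Set (Torus K n)) := Set.uniqueSingleton P
  simp

lemma hasDegree_singleton (P : Torus K n) : HasDegree ({P} : Set (Torus K n)) 0 1 := by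
  unfold HasDegree
  simp only [finrank_sections_singleton]
  simp

lemma isEquidimensional_singleton (P : Torus K n) : IsEquidimensional ({P} : Set (Torus K n)) 0 := by
  refine ⟨Set.singleton_nonempty P, ?_⟩
  have := idealOf_singleton_isPrime P
  rw [Ideal.minimalPrimes_eq_subsingleton_self]
  intro Q hQ
  rw [Set.mem_singleton_iff] at hQ
  subst hQ
  have hm := idealOf_singleton_isMaximal P
  have hf := (Ideal.Quotient.maximal_ideal_iff_isField_quotient _).1 hm
  exact ringKrullDim_eq_zero_of_isField hf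

lemma essMin_singleton (P : Torus K n) : essMin ({P} : Set (Torus K n)) = height P := by
  unfold essMin
  have hset : {θ : ℝ | idealOf {x | x ∈ ({P} : Set (Torus K n)) ∧ height x ≤ θ} ≤
      idealOf ({P} : Set (Torus K n))} = Set.Ici (height P) := by
    ext θ
    simp only [Set.mem_ofPred_eq, Set.mem_Ici]
    constructor
    · intro h
      by_contra hlt
      have hemp : {x | x ∈ ({P} : Set (Torus K n)) ∧ height x ≤ θ} = (∅ : Set (Torus K n)) := by
        ext x
        simp only [Set.mem_ofPred_eq, Set.mem_singleton_iff, Set.mem_empty_iff_false, iff_false,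
          not_and]
        rintro rfl
        exact hlt
      rw [hemp] at h
      have htop : idealOf (∅ : Set (Torus K n)) = ⊤ := by
        unfold idealOf
        rw [Set.image_empty, vanishingIdeal_empty]
      rw [htop, top_le_iff] at h
      exact (idealOf_singleton_isPrime P).ne_top h
    · intro h
      have : {x | x ∈ ({P} : Set (Torus K n)) ∧ height x ≤ θ} = ({P} : Set (Torus K n)) := by
        ext x
        simp only [Set.mem_ofPred_eq, Set.mem_singleton_iff, and_iff_left_iff_imp]
        rintro rfl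
        exact h
      rw [this]
  rw [hset, csInf_Ici]

lemma obstructionIndex_singleton_le (hn : 1 ≤ n) (L : IntermediateField K (AlgebraicClosure K))
    (P : Torus K n) (hP : ∀ i, coords P i ∈ L) :
    obstructionIndex L ({P} : Set (Torus K n)) ≤ 1 := by
  unfold obstructionIndex
  apply csInf_le
  · refine ⟨0, ?_⟩
    rintro ω ⟨Z, d, δ, -, -, -, -, hδ, rfl⟩
    apply Real.rpow_nonneg
    refine ge_of_tendsto' hδ ?_
    intro m
    positivity
  · exact ⟨{P}, 0, 1, closed_singleton L P hP, singleton_ne_univ hn P,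
      isEquidimensional_singleton P, subset_rfl, hasDegree_singleton P, by simp⟩

end Geometry

section Arithmetic

/-- distinct primes -/
noncomputable def ell (i : ℕ) : ℕ := Nat.nth Nat.Prime i

lemma ell_prime (i : ℕ) : (ell i).Prime := Nat.prime_nth_prime i

lemma ell_injective : Function.Injective ell := Nat.nth_injective Nat.infinite_setOfPred_prime

lemma mult_indep_rat {n : ℕ} (c : Fin n → ℤ) (h : ∏ i : Fin n, ((ell i : ℕ) : ℚ) ^ (c i) = 1) : c = 0 := by
  funext j
  have hp : Fact (ell j).Prime := ⟨ell_prime j⟩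
  have h1 := congrArg (padicValRat (ell j)) h
  have h2 : ∀ s : Finset (Fin n), padicValRat (ell j) (∏ i ∈ s, ((ell i : ℕ) : ℚ) ^ (c i))
      = ∑ i ∈ s, if i = j then c i else 0 := by
    intro s
    induction s using Finset.induction_on with
    | empty => simp
    | insert a s ha ih =>
      rw [Finset.prod_insert ha, Finset.sum_insert ha, padicValRat.mul, ih]
      · congr 1
        rw [padicValRat.zpow]
        · rw [padicValRat.of_nat]
          split_ifs with haj
          · subst haj
            simp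
          · have : padicValNat (ell j) (ell a) = 0 := by
              apply padicValNat.eq_zero_of_not_dvd
              intro hd
              have := (Nat.prime_dvd_prime_iff_eq (ell_prime j) (ell_prime a)).1 hd
              exact haj (Fin.ext (ell_injective this.symm))
            simp [this]
      · apply zpow_ne_zero
        exact_mod_cast (ell_prime a).ne_zero
      · rw [Finset.prod_ne_zero_iff]
        intro i _
        apply zpow_ne_zero
        exact_mod_cast (ell_prime i).ne_zero
  rw [h2] at h1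
  simpa using h1

lemma mult_indep {n : ℕ} (F : Type*) [Field F] [CharZero F] (c : Fin n → ℤ)
    (h : ∏ i : Fin n, ((ell i : ℕ) : F) ^ (c i) = 1) : c = 0 := by
  apply mult_indep_rat
  apply (algebraMap ℚ F).injective
  rw [map_prod, map_one, ← h]
  apply Finset.prod_congr rfl
  intro i _
  rw [map_zpow₀, map_natCast]

/-- the arithmetic heart: no nonzero integral eigenvector -/
lemma no_eigenvector (k : ℕ) (a : Fin (k + 2) → ℤ) (M : ℕ) (B : ℤ) (hM : 1 ≤ M)
    (h : ∀ i : Fin (k + 2), (if i = 0 then 2 else 1 : ℤ) * a i * M = B * a (i + 1)) : a = 0 := by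
  by_contra hne
  obtain ⟨i0, hi0⟩ : ∃ i, a i ≠ 0 := by
    by_contra hc
    push Not at hc
    exact hne (funext hc)
  have hMz : (M : ℤ) ≠ 0 := by exact_mod_cast (by omega : M ≠ 0)
  have hstep : ∀ i, a i ≠ 0 → a (i + 1) ≠ 0 := by
    intro i hi h0
    have h1 := h i
    rw [h0, mul_zero] at h1
    have h2 : (if i = 0 then 2 else 1 : ℤ) ≠ 0 := by split_ifs <;> norm_num
    exact mul_ne_zero (mul_ne_zero h2 hi) hMz h1
  have hall' : ∀ j : ℕ, a (i0 + Fin.ofNat (k + 2) j) ≠ 0 := by
    intro j
    induction j with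
    | zero => simpa using hi0
    | succ j ih =>
      have := hstep _ ih
      rw [add_assoc] at this
      have h2 : Fin.ofNat (k + 2) j + 1 = Fin.ofNat (k + 2) (j + 1) := by
        apply Fin.ext
        simp [Fin.val_add]
      rwa [h2] at this
  have hall : ∀ t, a t ≠ 0 := by
    intro t
    have := hall' (t - i0).val
    have h2 : Fin.ofNat (k + 2) (t - i0).val = t - i0 := by
      apply Fin.ext
      simp
    rwa [h2, add_sub_cancel] at this
  have hprod : ∏ i : Fin (k + 2), ((if i = 0 then 2 else 1 : ℤ) * a i * M)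
      = ∏ i : Fin (k + 2), (B * a (i + 1)) := Finset.prod_congr rfl fun i _ => h i
  rw [Finset.prod_mul_distrib, Finset.prod_mul_distrib, Finset.prod_mul_distrib,
    Finset.prod_const, Finset.prod_const] at hprod
  have hshift : ∏ i : Fin (k + 2), a (i + 1) = ∏ i : Fin (k + 2), a i :=
    Equiv.prod_comp (Equiv.addRight (1 : Fin (k + 2))) a
  have hw : ∏ i : Fin (k + 2), (if i = 0 then 2 else 1 : ℤ) = 2 := by
    rw [Finset.prod_ite_eq' Finset.univ (0 : Fin (k + 2)) (fun _ => (2 : ℤ))]
    simp
  rw [hshift, hw] at hprod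
  have hane : (∏ i : Fin (k + 2), a i) ≠ 0 := Finset.prod_ne_zero_iff.2 fun i _ => hall i
  have hfin : 2 * (M : ℤ) ^ (k + 2) = B ^ (k + 2) := by
    have : (2 * (M : ℤ) ^ (k + 2) - B ^ (k + 2)) * (∏ i : Fin (k + 2), a i) = 0 := by
      simp only [Finset.card_univ, Fintype.card_fin] at hprod
      linear_combination hprod
    rcases mul_eq_zero.1 this with h1 | h1
    · linarith
    · exact absurd h1 hane
  have hB : B ≠ 0 := by
    rintro rfl
    rw [zero_pow (by omega)] at hfin
    have : (M : ℤ) ^ (k + 2) ≠ 0 := pow_ne_zero _ hMz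
    omega
  have h2 : Fact (Nat.Prime 2) := ⟨Nat.prime_two⟩
  have hv := congrArg (padicValInt 2) hfin
  have hpow : ∀ (z : ℤ), z ≠ 0 → padicValInt 2 (z ^ (k + 2)) = (k + 2) * padicValInt 2 z := by
    intro z hz
    unfold padicValInt
    rw [Int.natAbs_pow, padicValNat.pow]
  rw [padicValInt.mul (by norm_num) (pow_ne_zero _ hMz), hpow _ hMz, hpow _ hB] at hv
  have h22 : padicValInt 2 2 = 1 := by
    have : padicValInt 2 ((2 : ℕ) : ℤ) = padicValNat 2 2 := padicValInt.of_nat
    simpa using this
  rw [h22] at hv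
  have : (k + 2) ∣ 1 := by
    have h3 : (k + 2) ∣ (k + 2) * padicValInt 2 B := Dvd.intro _ rfl
    rw [← hv] at h3
    exact (Nat.dvd_add_left (Dvd.intro _ rfl)).1 h3
  have := Nat.le_of_dvd one_pos this
  omega

end Arithmetic

section Construction

variable (K : Type) [Field K] [NumberField K] (k : ℕ)

/-- the point `(ℓ_0,…,ℓ_{k+1})` -/
noncomputable def gpt : Torus K (k + 2) := fun i =>
  Units.mk0 ((ell i : ℕ) : AlgebraicClosure K) (by exact_mod_cast (ell_prime i).ne_zero)

/-- division closure of the cyclic group generated by `gpt`. -/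
noncomputable def Gam : Subgroup (Torus K (k + 2)) where
  carrier := {x | ∃ m : ℕ, 1 ≤ m ∧ ∃ j : ℤ, x ^ m = gpt K k ^ j}
  one_mem' := ⟨1, le_rfl, 0, by simp⟩
  mul_mem' := by
    rintro x y ⟨m, hm, j, hx⟩ ⟨m', hm', j', hy⟩
    refine ⟨m * m', Nat.mul_pos hm hm', j * m' + j' * m, ?_⟩
    rw [mul_pow, pow_mul, hx, mul_comm m m', pow_mul, hy, zpow_add, zpow_mul, zpow_mul]
    simp
  inv_mem' := by
    rintro x ⟨m, hm, j, hx⟩
    exact ⟨m, hm, -j, by rw [inv_pow, hx, zpow_neg]⟩

variable {K k}

lemma mem_Gam {x : Torus K (k + 2)} :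
    x ∈ Gam K k ↔ ∃ m : ℕ, 1 ≤ m ∧ ∃ j : ℤ, x ^ m = gpt K k ^ j := Iff.rfl

lemma sat_Gam {x : Torus K (k + 2)} (hx : x ∈ sat (Gam K k)) : x ∈ Gam K k := by
  obtain ⟨m, hm, m', hm', j, h⟩ := hx
  exact ⟨m * m', Nat.mul_pos hm hm', j, by rw [pow_mul, h]⟩

lemma exists_root (N : ℕ) (hN : 1 ≤ N) (i : Fin (k + 2)) :
    ∃ r : (AlgebraicClosure K)ˣ, r ^ N = gpt K k i := by
  obtain ⟨z, hz⟩ := IsAlgClosed.exists_pow_nat_eq ((ell i : ℕ) : AlgebraicClosure K)
    (n := N) (by omega)
  have hz0 : z ≠ 0 := by
    rintro rfl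
    rw [zero_pow (by omega)] at hz
    have : ((ell i : ℕ) : AlgebraicClosure K) ≠ 0 := by exact_mod_cast (ell_prime i).ne_zero
    exact this hz.symm
  exact ⟨Units.mk0 z hz0, Units.ext (by simpa [gpt] using hz)⟩

/-- the `N`-th root point -/
noncomputable def root (K : Type) [Field K] [NumberField K] (k N : ℕ) (hN : 1 ≤ N) :
    Torus K (k + 2) := fun i => (exists_root N hN i).choose

lemma root_pow (N : ℕ) (hN : 1 ≤ N) : root K k N hN ^ N = gpt K k := by
  funext i
  exact (exists_root N hN i).choose_spec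

lemma root_mem (N : ℕ) (hN : 1 ≤ N) : root K k N hN ∈ Gam K k :=
  ⟨N, hN, 1, by rw [root_pow, zpow_one]⟩

/-- the small transverse point -/
noncomputable def pt (K : Type) [Field K] [NumberField K] (k N : ℕ) (hN : 1 ≤ N) :
    Torus K (k + 2) := fun i => (root K k N hN (i + 1)) ^ (if i = 0 then 2 else 1)

lemma coords_root_mem (N : ℕ) (hN : 1 ≤ N) (i : Fin (k + 2)) :
    coords (root K k N hN) i ∈ fieldOf (Gam K k) :=
  IntermediateField.subset_adjoin K _ ⟨_, root_mem N hN, i, rfl⟩

lemma coords_pt_mem (N : ℕ) (hN : 1 ≤ N) (i : Fin (k + 2)) :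
    coords (pt K k N hN) i ∈ fieldOf (Gam K k) := by
  have : coords (pt K k N hN) i = (coords (root K k N hN) (i + 1)) ^ (if i = 0 then 2 else 1) := by
    simp only [coords, pt, Units.val_pow_eq_pow_val]
  rw [this]
  exact pow_mem (coords_root_mem N hN _) _

lemma pt_pow (N : ℕ) (hN : 1 ≤ N) (i : Fin (k + 2)) :
    (pt K k N hN i) ^ N = (gpt K k (i + 1)) ^ (if i = 0 then 2 else 1) := by
  have h := congrFun (root_pow (K := K) (k := k) N hN) (i + 1)
  rw [Pi.pow_apply] at h
  unfold pt
  rw [← pow_mul, mul_comm, pow_mul, h]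

lemma height_pt (N : ℕ) (hN : 1 ≤ N) :
    height (pt K k N hN) =
      (∑ i : Fin (k + 2), Real.log ((ell ((i + 1 : Fin (k + 2)) : ℕ)) ^ (if i = 0 then 2 else 1) : ℕ)) / N := by
  unfold height
  rw [Finset.sum_div]
  apply Finset.sum_congr rfl
  intro i _
  apply absLogHeight_of_pow_eq
  · omega
  · exact pow_ne_zero _ (ell_prime _).ne_zero
  · have h := congrArg Units.val (pt_pow (K := K) (k := k) N hN i)
    simp only [Units.val_pow_eq_pow_val] at h
    change (coords (pt K k N hN) i) ^ N = _ at h
    rw [h]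
    push_cast
    rfl

lemma pt_transverse (N : ℕ) (hN : 1 ≤ N) :
    IsTransverse (Gam K k) ({pt K k N hN} : Set (Torus K (k + 2))) := by
  intro B γ hB hγ hne hsub
  have hBne : (B : Set (Torus K (k + 2))) ≠ Set.univ := by
    intro h
    apply hne
    rw [h]
    ext x
    simp only [Set.image_univ, Set.mem_range, Set.mem_univ, iff_true]
    exact ⟨x * γ⁻¹, by simp⟩
  obtain ⟨a, ha, hker⟩ := exists_character B ⊤ hB.1 hBne
  obtain ⟨b, hb, hbγ⟩ := hsub (Set.mem_singleton _)
  obtain ⟨M, hM, j, hj⟩ := sat_Gam hγ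
  apply ha
  apply no_eigenvector k a M (j * N) hM
  -- equality of characters
  have h1 : ∏ i, (pt K k N hN i) ^ (a i) = ∏ i, (γ i) ^ (a i) := by
    have : ∀ i, pt K k N hN i = b i * γ i := fun i => congrFun hbγ.symm i
    simp only [this, mul_zpow, Finset.prod_mul_distrib, hker b hb, one_mul]
  have h2 : (∏ i, (pt K k N hN i) ^ (a i)) ^ (N * M) =
      ∏ i, (gpt K k (i + 1)) ^ ((if i = 0 then 2 else 1 : ℤ) * a i * M) := by
    rw [← Finset.prod_pow]
    apply Finset.prod_congr rfl
    intro i _
    have h3 := pt_pow (K := K) (k := k) N hN i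
    calc ((pt K k N hN i) ^ (a i)) ^ (N * M) = ((pt K k N hN i) ^ N) ^ (a i * M) := by
          rw [← zpow_natCast, ← zpow_mul, ← zpow_natCast, ← zpow_mul]
          congr 1
          push_cast
          ring
      _ = _ := by
          rw [h3, ← zpow_natCast, ← zpow_mul]
          congr 1
          split_ifs <;> push_cast <;> ring
  have h4 : (∏ i, (γ i) ^ (a i)) ^ (N * M) = ∏ i, (gpt K k i) ^ (j * N * a i) := by
    rw [← Finset.prod_pow]
    apply Finset.prod_congr rfl
    intro i _
    have h3 : (γ i) ^ M = (gpt K k i) ^ j := by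
      have := congrFun hj i
      simpa using this
    calc ((γ i) ^ (a i)) ^ (N * M) = ((γ i) ^ M) ^ (a i * N) := by
          rw [← zpow_natCast, ← zpow_mul, ← zpow_natCast, ← zpow_mul]
          congr 1
          push_cast
          ring
      _ = _ := by
          rw [h3, ← zpow_mul]
          congr 1
          ring
  rw [h1, h4] at h2
  have h5 : ∏ i, (gpt K k i) ^ (j * N * a i) = ∏ i, (gpt K k (i + 1)) ^ (j * N * a (i + 1)) :=
    (Equiv.prod_comp (Equiv.addRight (1 : Fin (k + 2))) fun i => (gpt K k i) ^ (j * N * a i)).symm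
  rw [h5] at h2
  have h6 : ∏ i, (gpt K k (i + 1)) ^ ((if i = 0 then 2 else 1 : ℤ) * a i * M - j * N * a (i + 1)) = 1 := by
    simp only [zpow_sub]
    rw [Finset.prod_mul_distrib, Finset.prod_inv_distrib, ← h2, mul_inv_cancel]
  set c : Fin (k + 2) → ℤ := fun i =>
    (if i = 0 then 2 else 1 : ℤ) * a i * M - j * N * a (i + 1) with hc
  have h7 : ∏ i, (gpt K k i) ^ (c (i - 1)) = 1 := by
    rw [← h6, ← Equiv.prod_comp (Equiv.addRight (1 : Fin (k + 2)))
      fun i => (gpt K k i) ^ (c (i - 1))]
    simp [hc]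
  have h8 : (fun i => c (i - 1)) = 0 := by
    apply mult_indep (AlgebraicClosure K)
    have := congrArg Units.val h7
    simpa [gpt] using this
  intro i
  have h9 := congrFun h8 (i + 1)
  simp only [add_sub_cancel_right, Pi.zero_apply, hc] at h9
  linarith

lemma gpt_mem : gpt K k ∈ Gam K k := ⟨1, le_rfl, 1, by simp⟩

lemma gpt_zpow_eq_one {j : ℤ} (h : gpt K k ^ j = 1) : j = 0 := by
  have h1 := congrFun h 0
  have h2 : ∏ i : Fin (k + 2), ((ell i : ℕ) : AlgebraicClosure K) ^ (if i = 0 then j else 0) = 1 := by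
    rw [Finset.prod_eq_single 0]
    · have := congrArg Units.val h1
      simpa [gpt] using this
    · intro b _ hb
      simp [hb]
    · simp
  have h3 := congrFun (mult_indep (AlgebraicClosure K) _ h2) 0
  simpa using h3

lemma rank_Gam : Module.rank ℤ (Additive (Gam K k)) = 1 := by
  apply le_antisymm
  · have : ((1 : ℕ) : Cardinal) = 1 := Nat.cast_one
    rw [← this]
    apply rank_le
    intro s hs
    by_contra hcard
    push Not at hcard
    obtain ⟨x, hx, y, hy, hxy⟩ := Finset.one_lt_card.1 hcard
    obtain ⟨m, hm, j, hxj⟩ := (Additive.toMul x).2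
    obtain ⟨m', hm', j', hyj⟩ := (Additive.toMul y).2
    have hxm : (Additive.toMul x) ^ m = (⟨gpt K k, gpt_mem⟩ : Gam K k) ^ j := Subtype.ext hxj
    have hym : (Additive.toMul y) ^ m' = (⟨gpt K k, gpt_mem⟩ : Gam K k) ^ j' := Subtype.ext hyj
    have hpair : LinearIndependent ℤ ![x, y] := by
      have := hs.comp (![(⟨x, hx⟩ : s), ⟨y, hy⟩]) (by
        intro a b hab
        fin_cases a <;> fin_cases b <;> simp_all)
      convert this using 1
      funext a
      fin_cases a <;> rfl
    rw [LinearIndependent.pair_iff] at hpair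
    have hrel : (m * j' : ℤ) • x + (-(m' * j) : ℤ) • y = 0 := by
      have : Additive.toMul ((m * j' : ℤ) • x + (-(m' * j) : ℤ) • y) = 1 := by
        rw [toMul_add, toMul_zsmul, toMul_zsmul, zpow_mul, zpow_natCast, hxm, zpow_neg, zpow_mul,
          zpow_natCast, hym, ← zpow_mul, ← zpow_mul, mul_comm j' j, mul_inv_cancel]
      exact Additive.toMul.injective this
    obtain ⟨h1, h2⟩ := hpair _ _ hrel
    have hm0 : (m : ℤ) ≠ 0 := by exact_mod_cast (by omega : m ≠ 0)
    have hj' : j' = 0 := by
      rcases mul_eq_zero.1 h1 with h | h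
      · exact absurd h hm0
      · exact h
    subst hj'
    have hyz : (0 : ℤ) • x + (m' : ℤ) • y = 0 := by
      have : Additive.toMul ((0 : ℤ) • x + (m' : ℤ) • y) = 1 := by
        rw [toMul_add, toMul_zsmul, toMul_zsmul, zpow_natCast, hym]
        simp
      exact Additive.toMul.injective this
    have := (hpair _ _ hyz).2
    omega
  · have hli : LinearIndependent ℤ (fun _ : Unit => Additive.ofMul (⟨gpt K k, gpt_mem⟩ : Gam K k)) := by
      rw [Fintype.linearIndependent_iff]
      intro g hg i
      simp only [Finset.univ_unique, Finset.sum_singleton] at hg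
      have h1 := congrArg Additive.toMul hg
      rw [toMul_zsmul, toMul_ofMul, toMul_zero] at h1
      exact gpt_zpow_eq_one (congrArg Subtype.val h1)
    simpa using hli.cardinal_le_rank

end Construction

/-- Over every number field and for every `n ≥ 2` some rank one subgroup of `𝔾_m^n` is not a
Lehmer group. -/
theorem result (K : Type) [Field K] [NumberField K] (n : ℕ) (hn : 2 ≤ n) :
    ∃ Γ : Subgroup (Torus K n), Module.rank ℤ (Additive Γ) = 1 ∧ ¬ IsLehmerGroup Γ := by
  obtain ⟨k, rfl⟩ : ∃ k, n = k + 2 := ⟨n - 2, by omega⟩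
  refine ⟨Gam K k, rank_Gam, ?_⟩
  rintro ⟨c, hc, h⟩
  set H : ℝ := ∑ i : Fin (k + 2),
    Real.log ((ell ((i + 1 : Fin (k + 2)) : ℕ)) ^ (if i = 0 then 2 else 1) : ℕ) with hH
  obtain ⟨N, hN⟩ := exists_nat_gt (H / c)
  have hN1 : 1 ≤ N + 1 := by omega
  have hV := h {pt K k (N + 1) hN1}
    ⟨closed_singleton ⊤ _ (fun i => trivial), idealOf_singleton_isPrime _⟩
    (singleton_ne_univ (by omega) _) (pt_transverse _ hN1)
  rw [essMin_singleton] at hV
  have hω := obstructionIndex_singleton_le (by omega : 1 ≤ k + 2) (fieldOf (Gam K k))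
    (pt K k (N + 1) hN1) (coords_pt_mem _ hN1)
  have hh := height_pt (K := K) (k := k) (N + 1) hN1
  rw [← hH] at hh
  have hHnn : 0 ≤ H := by
    apply Finset.sum_nonneg
    intro i _
    apply Real.log_natCast_nonneg
  have hpos : 0 ≤ height (pt K k (N + 1) hN1) := by
    rw [hh]
    positivity
  have h1 : c ≤ H / ((N + 1 : ℕ) : ℝ) := by
    calc c ≤ _ := hV
      _ ≤ 1 * height (pt K k (N + 1) hN1) := mul_le_mul_of_nonneg_right hω hpos
      _ = _ := by rw [one_mul, hh]
  have h2 : H < c * N := by
    rw [div_lt_iff₀ hc] at hN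
    linarith
  have h3 : (0 : ℝ) < ((N + 1 : ℕ) : ℝ) := by positivity
  rw [le_div_iff₀ h3] at h1
  push_cast at h1
  nlinarith

end Pool.Agent.Results.MP_187c26_nt.RankOneNotLehmer
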